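import Pool.Agent.H65.RaagRF

namespace Pool.Agent.Results.MP_9fd99d_al.LefAll

open Filter

/-- The verbal subgroup of `G` for the set of laws `W`. -/
def verbal (W : Set (FreeGroup ℕ)) (G : Type) [Group G] : Subgroup G :=
  Subgroup.closure {x | ∃ w ∈ W, ∃ f : ℕ → G, x = FreeGroup.lift f w}

theorem map_lift {G H : Type} [Group G] [Group H] (φ : G →* H) (f : ℕ → G) (w : FreeGroup ℕ) :
    φ (FreeGroup.lift f w) = FreeGroup.lift (φ ∘ f) w :=
  DFunLike.congr_fun (show φ.comp (FreeGroup.lift f) = FreeGroup.lift (φ ∘ f) by ext; simp) w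

theorem map_verbal (W : Set (FreeGroup ℕ)) {G H : Type} [Group G] [Group H] (φ : G →* H) :
    verbal W G ≤ (verbal W H).comap φ := by
  refine (Subgroup.closure_le _).2 ?_
  rintro _ ⟨w, hw, f, rfl⟩
  exact Subgroup.subset_closure ⟨w, hw, φ ∘ f, map_lift φ f w⟩

instance normal (W : Set (FreeGroup ℕ)) (G : Type) [Group G] : (verbal W G).Normal :=
  ⟨fun _ hn g => map_verbal W (MulAut.conj g).toMonoidHom hn⟩

/-- Property (RF). -/
def PropRF (W : Set (FreeGroup ℕ)) : Prop :=
  ∀ (G : Type) [Group G], Group.ResiduallyFinite G → Group.ResiduallyFinite (G ⧸ verbal W G)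

/-- Locally embeddable into finite groups. -/
def LEF (H : Type) [Group H] : Prop :=
  ∀ s : Finset H, ∃ (Q : Type) (_ : Group Q) (_ : Finite Q) (φ : H → Q),
    Set.InjOn φ s ∧ ∀ x ∈ s, ∀ y ∈ s, φ (x * y) = φ x * φ y

theorem big (W : Set (FreeGroup ℕ)) (hW : ∃ w ∈ W, w ≠ 1) (Q : Type) [Group Q] [Finite Q] :
    ∃ (S : Type) (_ : Group S) (_ : Finite S) (e : Q →* S),
      Function.Injective e ∧ verbal W S = ⊤ := by
  classical
  obtain ⟨w, hw, hw1⟩ := hW
  obtain ⟨N, hN⟩ := Group.exists_finiteIndexNormalSubgroup_notMem w hw1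
  let B := Q × (FreeGroup ℕ ⧸ N.toSubgroup) × Multiplicative (ZMod 3)
  have : Finite B := inferInstance
  letI : Fintype B := Fintype.ofFinite B
  let d : B →* Equiv.Perm (B ⊕ B) := (Equiv.Perm.sumCongrHom B B).comp
    ((MulAction.toPermHom B B).prod (MulAction.toPermHom B B))
  have hd : Function.Injective d := Equiv.Perm.sumCongrHom_injective.comp
    fun a b h => MulAction.toPerm_injective (congrArg Prod.fst h)
  have hm : ∀ b, d b ∈ alternatingGroup (B ⊕ B) := fun b => by
    rw [Equiv.Perm.mem_alternatingGroup]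
    show Equiv.Perm.sign (Equiv.Perm.sumCongr _ _) = 1
    rw [Equiv.Perm.sign_sumCongr]
    exact Int.units_mul_self _
  let e : B →* alternatingGroup (B ⊕ B) := d.codRestrict _ hm
  have he : Function.Injective e := fun a b h => hd (congrArg Subtype.val h)
  have hc : 5 ≤ Nat.card (B ⊕ B) := by
    have h3 : Nat.card (Multiplicative (ZMod 3)) ≤ Nat.card B :=
      Nat.card_le_card_of_surjective (fun b : B => b.2.2) fun z => ⟨(1, 1, z), rfl⟩
    have h4 : Nat.card (Multiplicative (ZMod 3)) = 3 := Nat.card_zmod 3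
    rw [Nat.card_sum]
    omega
  have := alternatingGroup.isSimpleGroup hc
  refine ⟨alternatingGroup (B ⊕ B), inferInstance, inferInstance, e.comp (MonoidHom.inl _ _),
    he.comp fun a b h => congrArg Prod.fst h, ?_⟩
  refine (Subgroup.Normal.eq_bot_or_eq_top (normal W _)).resolve_left fun h => hN ?_
  let j : FreeGroup ℕ →* B := (MonoidHom.inr _ _).comp
    ((MonoidHom.inl _ _).comp (QuotientGroup.mk' N.toSubgroup))
  have h1 : w ∈ verbal W (FreeGroup ℕ) :=
    Subgroup.subset_closure ⟨w, hw, FreeGroup.of, (DFunLike.congr_fun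
      (show FreeGroup.lift FreeGroup.of = MonoidHom.id (FreeGroup ℕ) by ext; simp) w).symm⟩
  have h2 := map_verbal W (e.comp j) h1
  rw [h, Subgroup.mem_comap, Subgroup.mem_bot] at h2
  have h3 : j w = 1 := he (h2.trans (map_one e).symm)
  exact (QuotientGroup.eq_one_iff w).1 (congrArg (fun b : B => b.2.1) h3)

theorem count_case (W : Set (FreeGroup ℕ)) (hW : ∃ w ∈ W, w ≠ 1) (hRF : PropRF W)
    (H : Type) [Group H] [Countable H] (hL : LEF H)
    (hH : ∀ w ∈ W, ∀ f : ℕ → H, FreeGroup.lift f w = 1) : Group.ResiduallyFinite H := by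
  classical
  obtain ⟨u, hu⟩ := exists_surjective_nat H
  have h0 : ∀ k : ℕ, ∃ (S : Type) (_ : Group S) (_ : Finite S) (ψ : H → S),
      verbal W S = ⊤ ∧ Set.InjOn ψ ((Finset.range k).image u) ∧
      ∀ x ∈ (Finset.range k).image u, ∀ y ∈ (Finset.range k).image u,
        ψ (x * y) = ψ x * ψ y := fun k => by
    obtain ⟨Q, _, _, φ, h1, h2⟩ := hL ((Finset.range k).image u)
    obtain ⟨S, _, _, e, he, hS⟩ := big W hW Q
    exact ⟨S, inferInstance, inferInstance, e ∘ φ, hS, he.comp_injOn h1,
      fun x hx y hy => by simp [h2 x hx y hy]⟩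
  choose S iG iF ψ hS hinj hmul using h0
  have hev : ∀ x : H, ∀ᶠ k in atTop, x ∈ (Finset.range k).image u := fun x => by
    obtain ⟨n, rfl⟩ := hu x
    filter_upwards [eventually_gt_atTop n] with k hk
    exact Finset.mem_image_of_mem u (Finset.mem_range.2 hk)
  have em : ∀ x y : H, ∀ᶠ k in atTop, ψ k (x * y) = ψ k x * ψ k y := fun x y => by
    filter_upwards [hev x, hev y] with k h1 h2 using hmul k x h1 y h2
  have e1 : ∀ᶠ k in atTop, ψ k 1 = 1 := by
    filter_upwards [em 1 1] with k h
    rw [mul_one] at h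
    exact left_eq_mul.1 h
  let G : Subgroup (∀ k, S k) :=
    { carrier := {x | ∃ h : H, ∀ᶠ k in atTop, x k = ψ k h}
      one_mem' := ⟨1, by filter_upwards [e1] with k h using h.symm⟩
      mul_mem' := by
        rintro a b ⟨x, hx⟩ ⟨y, hy⟩
        refine ⟨x * y, ?_⟩
        filter_upwards [hx, hy, em x y] with k h1 h2 h3
        rw [Pi.mul_apply, h1, h2, h3]
      inv_mem' := by
        rintro a ⟨x, hx⟩
        refine ⟨x⁻¹, ?_⟩
        filter_upwards [hx, e1, em x x⁻¹] with k h1 h2 h3
        rw [mul_inv_cancel, h2] at h3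
        rw [Pi.inv_apply, h1]
        exact inv_eq_of_mul_eq_one_right h3.symm }
  have uq : ∀ (a : ∀ k, S k) (x y : H), (∀ᶠ k in atTop, a k = ψ k x) →
      (∀ᶠ k in atTop, a k = ψ k y) → x = y := fun a x y hx hy => by
    obtain ⟨k, h1, h2, h3, h4⟩ := (hx.and (hy.and ((hev x).and (hev y)))).exists
    exact hinj k h3 h4 (h1.symm.trans h2)
  choose p hp using fun a : G => a.2
  let π : G →* H := MonoidHom.mk' p fun a b => uq (a * b : G).1 _ _ (hp _) (by
    filter_upwards [hp a, hp b, em (p a) (p b)] with k h1 h2 h3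
    rw [h3, ← h1, ← h2]; rfl)
  have hs : Function.Surjective π := fun x =>
    ⟨⟨fun k => ψ k x, x, by simp⟩, uq _ _ _ (hp _) (by simp)⟩
  have hG : Group.ResiduallyFinite G := Group.residuallyFinite_of_forall_exists_finite_monoidHom
    fun g hg => by
      obtain ⟨k, hk⟩ : ∃ k, g.1 k ≠ 1 := by
        by_contra hc
        push Not at hc
        exact hg (Subtype.ext (funext hc))
      exact ⟨S k, inferInstance, inferInstance, (Pi.evalMonoidHom S k).comp G.subtype, hk⟩
  have hsing : ∀ k (s : S k), Pi.mulSingle k s ∈ G := fun k s => ⟨1, by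
    filter_upwards [e1, eventually_gt_atTop k] with j h1 h2
    rw [h1, Pi.mulSingle_eq_of_ne h2.ne']⟩
  have hker : verbal W G = π.ker := by
    apply le_antisymm
    · refine (Subgroup.closure_le _).2 ?_
      rintro _ ⟨w, hw, f, rfl⟩
      exact (map_lift π f w).trans (hH w hw _)
    · intro a ha
      have h1 : ∀ᶠ k in atTop, a.1 k = 1 := by
        have h2 : p a = 1 := ha
        filter_upwards [hp a, e1] with k h3 h4
        rw [h3, h2, h4]
      obtain ⟨n, hn⟩ := eventually_atTop.1 h1
      clear ha h1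
      induction n generalizing a with
      | zero =>
        rw [show a = 1 from Subtype.ext (funext fun k => hn k (Nat.zero_le k))]
        exact one_mem _
      | succ n ih =>
        let ι : S n →* G := (MonoidHom.mulSingle S n).codRestrict G (hsing n)
        have h2 : ι (a.1 n) ∈ verbal W G :=
          map_verbal W ι (by rw [hS n]; trivial : a.1 n ∈ verbal W (S n))
        have h3 := ih (a := a * (ι (a.1 n))⁻¹) fun k hk => by
          show a.1 k * (Pi.mulSingle n (a.1 n) k)⁻¹ = 1
          rcases hk.eq_or_lt with rfl | hk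
          · simp
          · rw [hn k hk, Pi.mulSingle_eq_of_ne hk.ne']; simp
        simpa using mul_mem h3 h2
  have h1 := hRF G hG
  let e : (G ⧸ verbal W G) ≃* H :=
    (QuotientGroup.quotientMulEquivOfEq hker).trans (QuotientGroup.quotientKerEquivOfSurjective π hs)
  refine Group.residuallyFinite_of_forall_exists_finite_monoidHom fun g hg => ?_
  obtain ⟨N, hN⟩ := Group.exists_finiteIndexNormalSubgroup_notMem (e.symm g)
    (by simpa using hg)
  exact ⟨_ ⧸ N.toSubgroup, inferInstance, inferInstance,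
    (QuotientGroup.mk' N.toSubgroup).comp e.symm.toMonoidHom,
    fun h => hN ((QuotientGroup.eq_one_iff _).1 h)⟩

theorem countable_sub (H : Type) [Group H] (h : ¬ Group.ResiduallyFinite H) :
    ∃ K : Subgroup H, Countable K ∧ ¬ Group.ResiduallyFinite K := by
  classical
  obtain ⟨g, hg1, hg⟩ : ∃ g : H, g ≠ 1 ∧
      ∀ (Q : Type) (_ : Group Q) (_ : Finite Q) (f : H →* Q), f g = 1 := by
    by_contra hc
    push Not at hc
    exact h (Group.residuallyFinite_of_forall_exists_finite_monoidHom fun g hg => by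
      obtain ⟨Q, _, _, f, hf⟩ := hc g hg
      exact ⟨Q, inferInstance, inferInstance, f, hf⟩)
  have h1 : ∀ n : ℕ, ∃ s : Finset H, ∀ φ : H → Equiv.Perm (Fin n),
      (∀ x ∈ s, ∀ y ∈ s, φ (x * y) = φ x * φ y) → φ g = 1 := fun n => by
    by_contra hc
    push Not at hc
    choose φ hφ hφ' using hc
    let U : Ultrafilter (Finset H) := Ultrafilter.of atTop
    have h2 : ∀ x : H, ∃ v, ∀ᶠ s in (U : Filter (Finset H)), φ s x = v := fun x =>
      Ultrafilter.eventually_exists_iff.1 (Eventually.of_forall fun s => ⟨_, rfl⟩)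
    choose v hv using h2
    have h3 : ∀ x : H, ∀ᶠ s in (U : Filter (Finset H)), x ∈ s := fun x =>
      (Ultrafilter.of_le atTop) (by
        filter_upwards [eventually_ge_atTop ({x} : Finset H)] with s hs
        exact hs (Finset.mem_singleton_self x))
    let f : H →* Equiv.Perm (Fin n) := MonoidHom.mk' v fun x y => by
      obtain ⟨s, a1, a2, a3, a4, a5⟩ :=
        ((hv x).and ((hv y).and ((hv (x * y)).and ((h3 x).and (h3 y))))).exists
      rw [← a1, ← a2, ← a3, hφ s x a4 y a5]
    obtain ⟨s, hs⟩ := (hv g).exists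
    exact hφ' s (hs.trans (hg _ _ inferInstance f))
  choose s hs using h1
  let T : Set H := insert g (⋃ n, (s n : Set H))
  have hT : T.Countable :=
    (Set.countable_iUnion fun n => (s n).countable_toSet).insert g
  have := hT.to_subtype
  let L : FreeGroup T →* H := FreeGroup.lift Subtype.val
  have hm : ∀ x ∈ T, x ∈ L.range := fun x hx => ⟨FreeGroup.of ⟨x, hx⟩, by simp [L]⟩
  refine ⟨L.range, L.rangeRestrict_surjective.countable, fun hK => ?_⟩
  obtain ⟨N, hN⟩ := Group.exists_finiteIndexNormalSubgroup_notMem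
    (⟨g, hm g (Set.mem_insert _ _)⟩ : L.range) fun h => hg1 (congrArg Subtype.val h)
  let Q := L.range ⧸ N.toSubgroup
  have : Finite Q := inferInstance
  let e := Finite.equivFin Q
  let f : L.range →* Equiv.Perm (Fin (Nat.card Q)) :=
    ((Equiv.permCongrHom e).toMonoidHom.comp (MulAction.toPermHom Q Q)).comp
      (QuotientGroup.mk' N.toSubgroup)
  have hs' : ∀ x ∈ s (Nat.card Q), x ∈ L.range := fun x hx =>
    hm x (Set.mem_insert_of_mem _ (Set.mem_iUnion.2 ⟨_, hx⟩))
  have h4 := hs (Nat.card Q) (fun x => if hx : x ∈ L.range then f ⟨x, hx⟩ else 1)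
    fun x hx y hy => by
      rw [dif_pos (hs' x hx), dif_pos (hs' y hy), dif_pos (mul_mem (hs' x hx) (hs' y hy)),
        ← map_mul]
      rfl
  rw [dif_pos (hm g (Set.mem_insert _ _))] at h4
  refine hN ((QuotientGroup.eq_one_iff _).1 (MulAction.toPerm_injective (α := Q) (β := Q) ?_))
  apply (Equiv.permCongrHom e).injective
  rw [show (MulAction.toPerm (1 : Q) : Equiv.Perm Q) = 1 from map_one (MulAction.toPermHom Q Q),
    map_one]
  exact h4

theorem result (W : Set (FreeGroup ℕ)) (hW : ∃ w ∈ W, w ≠ 1) (hRF : PropRF W)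
    (H : Type) [Group H] (hL : LEF H)
    (hH : ∀ w ∈ W, ∀ f : ℕ → H, FreeGroup.lift f w = 1) : Group.ResiduallyFinite H := by
  classical
  by_contra h
  obtain ⟨K, hK, hK'⟩ := countable_sub H h
  refine hK' (count_case W hW hRF K (fun s => ?_) fun w hw f => ?_)
  · obtain ⟨Q, _, _, φ, h1, h2⟩ := hL (s.image Subtype.val)
    refine ⟨Q, inferInstance, inferInstance, fun x => φ x, fun a ha b hb hab =>
      Subtype.ext (h1 (by simpa using ha) (by simpa using hb) hab), fun x hx y hy => ?_⟩
    exact h2 _ (Finset.mem_image_of_mem _ hx) _ (Finset.mem_image_of_mem _ hy)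
  · exact Subtype.ext ((map_lift K.subtype f w).trans (hH w hw _))

end Pool.Agent.Results.MP_9fd99d_al.LefAll
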